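import Mathlib

set_option autoImplicit false

namespace Pool.Agent.Results.MP_b50e26_gt.Finite
open Set

universe u

/-- Positive refinement expansive homeomorphisms. -/
def PosRefExp {X : Type u} [TopologicalSpace X] (f : X ≃ₜ X) : Prop :=
  ∃ (n : ℕ) (U : Fin n → Set X), (∀ i, IsOpen (U i)) ∧ (⋃ i, U i) = univ ∧
    ∀ 𝒱 : Set (Set X), (∀ V ∈ 𝒱, IsOpen V) → ⋃₀ 𝒱 = univ → ∀ k : ℕ → Fin n,
      ∃ N : ℕ, ∃ V ∈ 𝒱, (⋂ j ≤ N, (f^[j]) ⁻¹' U (k j)) ⊆ V

theorem uniform {X : Type u} {n : ℕ} (A : ℕ → Fin n → Set X) (𝒱 : Set (Set X))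
    (h : ∀ k : ℕ → Fin n, ∃ N : ℕ, ∃ V ∈ 𝒱, (⋂ j ≤ N, A j (k j)) ⊆ V) :
    ∃ N : ℕ, ∀ k : ℕ → Fin n, ∃ V ∈ 𝒱, (⋂ j ≤ N, A j (k j)) ⊆ V := by
  obtain ⟨N, hN⟩ := (isCompact_univ (X := ℕ → Fin n)).elim_directed_cover
    (fun N => interior {k | ∃ V ∈ 𝒱, (⋂ j ≤ N, A j (k j)) ⊆ V}) (fun _ => isOpen_interior)
    (fun k _ => by
      obtain ⟨N, V, hV, hk⟩ := h k
      refine mem_iUnion.2 ⟨N, mem_interior.2 ⟨Set.pi (Iic N) fun j => {k j}, fun l hl =>
        ⟨V, hV, fun x hx => hk ?_⟩, isOpen_set_pi (finite_Iic N) fun _ _ => isOpen_discrete _,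
        fun _ _ => rfl⟩⟩
      simp only [mem_iInter] at hx ⊢
      intro j hj
      rw [← show l j = k j from hl j hj]
      exact hx j hj)
    (Monotone.directed_le fun a b hab => interior_mono fun k ⟨V, hV, hk⟩ =>
      ⟨V, hV, Subset.trans (biInter_subset_biInter_left fun j hj => le_trans hj hab) hk⟩)
  exact ⟨N, fun k => (hN.trans interior_subset) (mem_univ k)⟩

theorem result (X : Type u) [TopologicalSpace X] [T1Space X] (f : X ≃ₜ X) (hf : PosRefExp f) :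
    Finite X := by
  classical
  obtain ⟨n, U, hU, hc, h⟩ := hf
  let C : ℕ → (ℕ → Fin n) → Set X := fun N k => ⋂ j ≤ N, (f^[j]) ⁻¹' U (k j)
  obtain ⟨N, hN⟩ := uniform (fun j i => (f^[j]) ⁻¹' U i) (range fun i => f.symm ⁻¹' U i)
    (h _ (by rintro _ ⟨i, rfl⟩; exact (hU i).preimage f.symm.continuous) (by
      rw [sUnion_range, ← preimage_iUnion, hc, preimage_univ]))
  have step : ∀ m (k : ℕ → Fin n), ∃ l : ℕ → Fin n, (f^[m]) ⁻¹' C N k ⊆ C (N + m) l := by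
    intro m
    induction m with
    | zero => exact fun k => ⟨k, Subset.rfl⟩
    | succ m ih =>
      intro k
      obtain ⟨l, hl⟩ := ih k
      obtain ⟨_, ⟨i, rfl⟩, hi⟩ := hN l
      refine ⟨fun j => Nat.casesOn j i l, fun x hx => ?_⟩
      have h1 : f x ∈ C (N + m) l := hl hx
      simp only [C, mem_iInter] at h1 ⊢
      intro j hj
      rcases j with _ | j
      · have h2 := hi (mem_iInter₂.2 fun j hj => h1 j (hj.trans (Nat.le_add_right N m)))
        simpa using h2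
      · exact h1 j (by omega)
  by_contra hinf
  rw [not_finite_iff_infinite] at hinf
  let e := Infinite.natEmbedding X
  let M := Fintype.card (Fin (N + 1) → Fin n)
  obtain ⟨m, hm⟩ := uniform (fun j i => (f^[j]) ⁻¹' U i)
    {V | IsOpen V ∧ ∀ a ≤ M, ∀ b ≤ M, e a ∈ V → e b ∈ V → a = b} (h _ (fun V hV => hV.1) (by
      refine eq_univ_of_forall fun x => ⟨(e '' {a | a ≤ M ∧ e a ≠ x})ᶜ, ⟨?_, ?_⟩, ?_⟩
      · exact (((finite_le_nat M).subset fun a ha => ha.1).image e).isClosed.isOpen_compl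
      · intro a ha b hb h1 h2
        have h3 : e a = x := not_not.1 fun h => h1 ⟨a, ⟨ha, h⟩, rfl⟩
        have h4 : e b = x := not_not.1 fun h => h2 ⟨b, ⟨hb, h⟩, rfl⟩
        exact e.injective (h3.trans h4.symm)
      · rintro ⟨a, ha, rfl⟩; exact ha.2 rfl))
  choose g hg using fun x : X => mem_iUnion.1 (hc.ge (mem_univ x))
  let κ : Fin (M + 1) → (Fin (N + 1) → Fin n) := fun a j => g (f^[j] (f^[m] (e a)))
  obtain ⟨a, b, hab, hκ⟩ := Fintype.exists_ne_map_eq_of_card_lt κ (by simp [M])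
  obtain ⟨l, hl⟩ := step m fun j => g (f^[j] (f^[m] (e a)))
  obtain ⟨V, hV, hlV⟩ := hm l
  have hsub : C (N + m) l ⊆ V := Subset.trans
    (biInter_subset_biInter_left fun j hj => le_trans hj (Nat.le_add_left m N)) hlV
  refine hab (Fin.ext (hV.2 a (Nat.lt_succ_iff.1 a.2) b (Nat.lt_succ_iff.1 b.2)
    (hsub (hl (mem_iInter₂.2 fun j _ => hg _))) (hsub (hl (mem_iInter₂.2 fun j hj => ?_)))))
  have := congrFun hκ ⟨j, Nat.lt_succ_of_le hj⟩
  simp only [κ] at this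
  show f^[j] (f^[m] (e b)) ∈ U (g (f^[j] (f^[m] (e a))))
  rw [this]
  exact hg _

end Pool.Agent.Results.MP_b50e26_gt.Finite
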